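import Pool.Agent.H15.LU.Targets

/-!
# MP_812e67_ag, module CRT: the only critical point of the family is the origin
-/

set_option autoImplicit false

namespace Pool.Agent.H30.LU.CRT

open Pool.Agent.H15.LU

theorem crt (h1 : T_VAL) : T_CRT := by
  intro a c p hs hx hy hz
  obtain ⟨hval, -⟩ := h1 a c hs
  simp only [dx, dy, dz] at hx hy hz
  by_cases h : p 1 = 0
  · have h0 : p 0 = 0 := by
      rw [h] at hz
      have : p 0 ^ 2 = 0 := by linear_combination hz
      exact pow_eq_zero_iff (two_ne_zero) |>.1 this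
    have h2 : p 2 = 0 := by
      rw [h, h0] at hy
      have : p 2 ^ 2 = 0 := by linear_combination hy
      exact pow_eq_zero_iff (two_ne_zero) |>.1 this
    funext i
    fin_cases i
    · exact h0
    · exact h
    · exact h2
  · exfalso
    obtain ⟨u, hu⟩ : ∃ u, p 0 = u * p 1 ^ 2 := ⟨p 0 / p 1 ^ 2, by field_simp⟩
    obtain ⟨v, hv⟩ : ∃ v, p 2 = v * p 1 ^ 3 := ⟨p 2 / p 1 ^ 3, by field_simp⟩
    rw [hu, hv] at hx hy hz
    have ez : 2 * v + u ^ 2 = 0 := by
      have : p 1 ^ 4 * (2 * v + u ^ 2) = 0 := by linear_combination hz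
      exact (mul_eq_zero.1 this).resolve_left (pow_ne_zero _ h)
    have ex : 2 * u * v + 2 * a * u + 1 = 0 := by
      have : p 1 ^ 5 * (2 * u * v + 2 * a * u + 1) = 0 := by linear_combination hx
      exact (mul_eq_zero.1 this).resolve_left (pow_ne_zero _ h)
    have ey : v ^ 2 + 3 * a * u ^ 2 + 5 * u + 7 * c = 0 := by
      have : p 1 ^ 6 * (v ^ 2 + 3 * a * u ^ 2 + 5 * u + 7 * c) = 0 := by linear_combination hy
      exact (mul_eq_zero.1 this).resolve_left (pow_ne_zero _ h)
    have hr : Root a u := by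
      unfold Root
      linear_combination (-1 : ℂ) * ex + u * ez
    have hv0 : val a c u = 0 := by
      unfold val
      unfold Root at hr
      have e4 : v = -u ^ 2 / 2 := by linear_combination (1 / 2 : ℂ) * ez
      rw [e4] at ey
      linear_combination (1 / 7 : ℂ) * ey - (1 / 28 : ℂ) * u * hr
    have := hval u hr
    rw [hv0, norm_zero] at this
    norm_num at this

end Pool.Agent.H30.LU.CRT
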