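import Pool.Agent.H15.LU.Targets

/-!
# MP_812e67_ag, module DSC: symmetric functions of the three critical values
-/

set_option autoImplicit false

namespace Pool.Agent.H30.LU.DSC

open Pool.Agent.H15.LU

theorem dsc (h1 : T_RT3) : T_DSC := by
  intro a c u₁ u₂ u₃ hR v₁ v₂ v₃ e₁ e₂ e₃
  obtain ⟨s1, s2, s3⟩ := h1.2.1 a u₁ u₂ u₃ hR
  have hu : u₃ = -u₁ - u₂ := by linear_combination s1
  have ha : a = (u₁ ^ 2 + u₁ * u₂ + u₂ ^ 2) / 2 := by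
    rw [hu] at s2
    linear_combination (1 / 2 : ℂ) * s2
  have hs : u₁ * u₂ * (-u₁ - u₂) = 1 := by
    rw [hu] at s3
    exact s3
  clear hR s1 s2 s3 h1
  subst e₁ e₂ e₃
  subst hu
  unfold val
  refine ⟨?_, ?_, ?_, ?_⟩
  · rw [ha]
    ring
  · rw [ha]
    linear_combination (27 / 8) * ((u₁ ^ 2 + u₁ * u₂ + u₂ ^ 2) / 2) * hs
  · rw [ha]
    linear_combination ((27 / 8) * ((u₁ ^ 2 + u₁ * u₂ + u₂ ^ 2) / 2) ^ 3 *
      (u₁ * u₂ * (-u₁ - u₂) + 4) + 729 / 64) * hs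
  · have key : ∀ s : ℂ, s = u₁ * u₂ * (-u₁ - u₂) →
        ((a / 2 * u₁ ^ 2 + 3 / 4 * u₁ + c - (a / 2 * u₂ ^ 2 + 3 / 4 * u₂ + c)) *
            (a / 2 * u₂ ^ 2 + 3 / 4 * u₂ + c -
              (a / 2 * (-u₁ - u₂) ^ 2 + 3 / 4 * (-u₁ - u₂) + c)) *
          (a / 2 * u₁ ^ 2 + 3 / 4 * u₁ + c -
            (a / 2 * (-u₁ - u₂) ^ 2 + 3 / 4 * (-u₁ - u₂) + c))) ^ 2 =
        (32 * a ^ 3 - 27 * s ^ 2) * (27 / 64 - 3 / 8 * a ^ 3 - a ^ 3 / 8 * s) ^ 2 := by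
      intro s hs'
      rw [hs', ha]
      ring
    rw [key 1 hs.symm]
    ring

end Pool.Agent.H30.LU.DSC
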