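import Pool.Agent.H15.LU.Targets

/-!
# MP_812e67_ag, modules GRD and GRN: the derivative of the family and its norm
-/

set_option autoImplicit false

namespace Pool.Agent.H30.LU.GRD

open Pool.Agent.H15.LU

theorem grd : T_GRD := by
  intro a c p
  have h0 : HasFDerivAt (fun q : Fin 3 → ℂ => q 0)
      (ContinuousLinearMap.proj (R := ℂ) (φ := fun _ : Fin 3 => ℂ) 0) p :=
    hasFDerivAt_apply (𝕜 := ℂ) (0 : Fin 3) p
  have h1 : HasFDerivAt (fun q : Fin 3 → ℂ => q 1)
      (ContinuousLinearMap.proj (R := ℂ) (φ := fun _ : Fin 3 => ℂ) 1) p :=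
    hasFDerivAt_apply (𝕜 := ℂ) (1 : Fin 3) p
  have h2 : HasFDerivAt (fun q : Fin 3 → ℂ => q 2)
      (ContinuousLinearMap.proj (R := ℂ) (φ := fun _ : Fin 3 => ℂ) 2) p :=
    hasFDerivAt_apply (𝕜 := ℂ) (2 : Fin 3) p
  have h := ((((h1.mul (h2.pow 2)).add ((h0.pow 2).mul h2)).add
    (((h0.pow 2).const_mul a).mul (h1.pow 3))).add (h0.mul (h1.pow 5))).add
      ((h1.pow 7).const_mul c)
  refine h.congr_fderiv ?_
  ext v
  simp only [grad, dx, dy, dz, add_apply, smul_apply,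
    ContinuousLinearMap.proj_apply, smul_eq_mul, nsmul_eq_mul]
  push_cast
  ring

end Pool.Agent.H30.LU.GRD
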