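import Pool.Agent.H15.LU.Targets

/-!
# MP_812e67_ag, module GRN: the norm of the gradient
-/

set_option autoImplicit false

namespace Pool.Agent.H30.LU.GRN

open Pool.Agent.H15.LU

theorem grad_apply (a c : ℂ) (p v : Fin 3 → ℂ) :
    grad a c p v = dx a p * v 0 + dy a c p * v 1 + dz p * v 2 := by
  simp [grad]

theorem norm_single (i : Fin 3) : ‖(Pi.single i (1 : ℂ) : Fin 3 → ℂ)‖ = 1 := by
  rw [Pi.norm_single]
  simp

theorem grn : T_GRN := by
  intro a c p
  refine ⟨?_, ?_, ?_, ?_⟩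
  · have h := (grad a c p).le_opNorm (Pi.single 0 1)
    rw [norm_single, mul_one, grad_apply] at h
    simpa using h
  · have h := (grad a c p).le_opNorm (Pi.single 1 1)
    rw [norm_single, mul_one, grad_apply] at h
    simpa using h
  · have h := (grad a c p).le_opNorm (Pi.single 2 1)
    rw [norm_single, mul_one, grad_apply] at h
    simpa using h
  · refine ContinuousLinearMap.opNorm_le_bound _ (by positivity) fun v => ?_
    rw [grad_apply]
    have e0 := norm_le_pi_norm v 0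
    have e1 := norm_le_pi_norm v 1
    have e2 := norm_le_pi_norm v 2
    calc ‖dx a p * v 0 + dy a c p * v 1 + dz p * v 2‖
        ≤ ‖dx a p * v 0‖ + ‖dy a c p * v 1‖ + ‖dz p * v 2‖ := norm_add₃_le
      _ = ‖dx a p‖ * ‖v 0‖ + ‖dy a c p‖ * ‖v 1‖ + ‖dz p‖ * ‖v 2‖ := by
          simp only [norm_mul]
      _ ≤ ‖dx a p‖ * ‖v‖ + ‖dy a c p‖ * ‖v‖ + ‖dz p‖ * ‖v‖ := by gcongr
      _ = _ := by ring

end Pool.Agent.H30.LU.GRN
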