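import Pool.Agent.H15.LU.Targets

/-!
# MP_812e67_ag, modules JKM and NEQ
-/

set_option autoImplicit false

namespace Pool.Agent.H30.LU.JKM

open Pool.Agent.H15.LU

theorem jkm : T_JKM := by
  obtain ⟨κ, hκ⟩ := IsAlgClosed.exists_pow_nat_eq (-1 / 3 : ℂ) (n := 2) (by norm_num)
  have hκ0 : κ ≠ 0 := by
    rintro rfl
    norm_num at hκ
  obtain ⟨μ, hμ⟩ := IsAlgClosed.exists_pow_nat_eq (2 * κ / 3 : ℂ) (n := 6) (by norm_num)
  have hμ0 : μ ≠ 0 := by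
    rintro rfl
    rw [zero_pow (by norm_num)] at hμ
    apply hκ0
    linear_combination (-3 / 2 : ℂ) * hμ
  refine ⟨κ, μ, 3 * κ / μ ^ 2, hμ0, ?_, ?_⟩
  · have h : 4 * (3 * κ / μ ^ 2) ^ 3 + 27 = -27 := by
      have h1 : (3 * κ / μ ^ 2) ^ 3 = 27 * κ ^ 3 / μ ^ 6 := by
        rw [div_pow]
        ring
      rw [h1, hμ]
      field_simp
      linear_combination (12 : ℂ) * hκ
    rw [h]
    norm_num
  · intro X Y
    have h1 : 3 * κ / μ ^ 2 * (X - κ * Y ^ 2) ^ 2 * (μ * Y) ^ 2 =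
        3 * κ * (X - κ * Y ^ 2) ^ 2 * Y ^ 2 := by
      field_simp
    have h2 : (μ * Y) ^ 6 = 2 * κ / 3 * Y ^ 6 := by
      rw [mul_pow, hμ]
    rw [h1, h2]
    linear_combination (3 * X * Y ^ 4 - 2 * κ * Y ^ 6) * hκ

end Pool.Agent.H30.LU.JKM
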