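import Pool.Agent.H15.LU.Targets

/-!
# MP_812e67_ag, module LGR: Lipschitz changes of variables and gradients
-/

set_option autoImplicit false

namespace Pool.Agent.H30.LU.LGR

open Pool.Agent.H15.LU Filter Topology

theorem lgr : T_LGR := by
  intro n f g ψ K q A B hK hA hB hψ hg
  have hψt : Tendsto ψ (𝓝 q) (𝓝 (ψ q)) := by
    rw [tendsto_iff_norm_sub_tendsto_zero]
    have h0 : Tendsto (fun r => K * ‖r - q‖) (𝓝 q) (𝓝 0) := by
      have : Tendsto (fun r : Fin n → ℂ => K * ‖r - q‖) (𝓝 q) (𝓝 (K * ‖q - q‖)) := by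
        apply Continuous.tendsto
        fun_prop
      simpa using this
    exact squeeze_zero' (Eventually.of_forall fun _ => norm_nonneg _) hψ h0
  have key : ∀ ε : ℝ, 0 < ε → ‖B‖ ≤ (‖A‖ + ε) * K := by
    intro ε hε
    refine hB.le_of_lip' (by positivity) ?_
    have h1 : ∀ᶠ w in 𝓝 (ψ q), ‖f w - f (ψ q)‖ ≤ (‖A‖ + ε) * ‖w - ψ q‖ := by
      have h2 := hA.isLittleO.def hε
      filter_upwards [h2] with w hw
      calc ‖f w - f (ψ q)‖ = ‖(f w - f (ψ q) - A (w - ψ q)) + A (w - ψ q)‖ := by ring_nf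
        _ ≤ ‖f w - f (ψ q) - A (w - ψ q)‖ + ‖A (w - ψ q)‖ := norm_add_le _ _
        _ ≤ ε * ‖w - ψ q‖ + ‖A‖ * ‖w - ψ q‖ := add_le_add hw (A.le_opNorm _)
        _ = _ := by ring
    filter_upwards [hψt.eventually h1, hψ, hg] with r h3 h4 h5
    rw [h5, hg.self_of_nhds]
    calc _ ≤ (‖A‖ + ε) * ‖ψ r - ψ q‖ := h3
      _ ≤ (‖A‖ + ε) * (K * ‖r - q‖) := by gcongr
      _ = _ := by ring
  have h6 : Tendsto (fun ε : ℝ => (‖A‖ + ε) * K) (𝓝[>] 0) (𝓝 ((‖A‖ + 0) * K)) := by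
    apply Tendsto.mono_left _ nhdsWithin_le_nhds
    apply Continuous.tendsto
    fun_prop
  have h7 := ge_of_tendsto h6 (by
    filter_upwards [self_mem_nhdsWithin] with ε hε
    exact key ε hε)
  linarith

end Pool.Agent.H30.LU.LGR
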