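import Pool.Agent.H15.LU.Targets

/-!
# MP_812e67_ag, module LIM: the Taylor coefficients of the limit polynomial
-/

set_option autoImplicit false

namespace Pool.Agent.H30.LU.LIM

open Pool.Agent.H15.LU Filter Topology Polynomial

theorem lim_ : T_LIM := by
  intro γ hγ
  have hS : SS 0 γ = C γ * X ^ 2 := by
    simp [SS]
  have hW : taylor (SS 0 γ) W₀ =
      C (C (γ ^ 4 - 4 * γ) * X ^ 8) + C (C (4 * γ ^ 3 - 4) * X ^ 6) * X +
        C (C (6 * γ ^ 2) * X ^ 4) * X ^ 2 + C (C (4 * γ) * X ^ 2) * X ^ 3 + X ^ 4 := by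
    rw [taylor_apply, hS]
    simp only [W₀, sub_comp, pow_comp, X_comp, mul_comp, C_comp]
    simp only [map_mul, map_pow, map_sub, map_ofNat, C_mul, C_pow]
    ring
  have hQ : taylor (SS 0 γ) Q₀ =
      C (C (γ ^ 2) * X ^ 4) + C (C (2 * γ) * X ^ 2) * X + X ^ 2 := by
    rw [taylor_apply, hS]
    simp only [Q₀, pow_comp, X_comp]
    simp only [map_mul, map_pow, map_ofNat]
    ring
  refine ⟨?_, ?_, ?_, ?_, ?_⟩
  · rw [hW]
    simp [-map_sub, -map_mul, -map_pow, coeff_X, coeff_C, coeff_X_pow]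
  · rw [hW]
    simp [-map_sub, -map_mul, -map_pow, coeff_X, coeff_C, coeff_X_pow]
  · intro h
    have h1 : γ ^ 3 = 1 := by linear_combination (1 / 4 : ℂ) * h
    have h2 : γ = 0 := by
      have : γ ^ 4 = γ := by
        calc γ ^ 4 = γ ^ 3 * γ := by ring
          _ = γ := by rw [h1, one_mul]
      rw [this] at hγ
      linear_combination (-1 / 3 : ℂ) * hγ
    rw [h2] at h1
    norm_num at h1
  · rw [hW]
    simp [-map_sub, -map_mul, -map_pow, coeff_X, coeff_C, coeff_X_pow]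
  · rw [hQ]
    simp [-map_sub, -map_mul, -map_pow, coeff_X, coeff_C, coeff_X_pow]

end Pool.Agent.H30.LU.LIM
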