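import Pool.Agent.H15.LU.Targets

/-!
# MP_812e67_ag, module LIP: bi-Lipschitz equivalence compares the gradients
-/

set_option autoImplicit false

namespace Pool.Agent.H30.LU.LIP

open Pool.Agent.H15.LU Filter Topology

theorem lip (h1 : T_LGR) : T_LIP := by
  rintro f g ⟨φ, U, K, hU, hV, h0, hL, hfg⟩
  obtain ⟨δ₁, hδ₁, hU'⟩ := Metric.mem_nhds_iff.1 hU
  obtain ⟨ρ, hρ, hV'⟩ := Metric.mem_nhds_iff.1 hV
  have h0U : (0 : Fin 3 → ℂ) ∈ U := mem_of_mem_nhds hU
  have hK : 0 < K := by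
    by_contra hK
    push Not at hK
    have hp : ‖(Pi.single 0 ((δ₁ / 2 : ℝ) : ℂ) : Fin 3 → ℂ)‖ = δ₁ / 2 := by
      rw [Pi.norm_single, Complex.norm_real, Real.norm_of_nonneg (by positivity)]
    have hpU : (Pi.single 0 ((δ₁ / 2 : ℝ) : ℂ) : Fin 3 → ℂ) ∈ U := by
      apply hU'
      rw [mem_ball_zero_iff, hp]
      linarith
    have := (hL _ hpU 0 h0U).2
    rw [sub_zero, hp] at this
    have h2 : K * ‖φ (Pi.single 0 ((δ₁ / 2 : ℝ) : ℂ)) - φ 0‖ ≤ 0 :=
      mul_nonpos_of_nonpos_of_nonneg hK (norm_nonneg _)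
    linarith
  refine ⟨φ, K, min δ₁ (ρ / K), hK, lt_min hδ₁ (by positivity), h0, ?_, ?_, ?_⟩
  · intro p q hp hq
    exact hL p (hU' (by simpa using (lt_min_iff.1 hp).1)) q
      (hU' (by simpa using (lt_min_iff.1 hq).1))
  · intro p hp
    exact hfg p (hU' (by simpa using (lt_min_iff.1 hp).1))
  · intro p hp A B hA hB
    obtain ⟨hp1, hp2⟩ := lt_min_iff.1 hp
    have hpU : p ∈ U := hU' (by simpa using hp1)
    have hq : φ p ∈ Metric.ball (0 : Fin 3 → ℂ) ρ := by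
      rw [mem_ball_zero_iff]
      have h2 := (hL p hpU 0 h0U).1
      rw [h0, sub_zero, sub_zero] at h2
      calc ‖φ p‖ ≤ K * ‖p‖ := h2
        _ < K * (ρ / K) := by gcongr
        _ = ρ := by field_simp
    have hnhds : ∀ᶠ r in 𝓝 (φ p), r ∈ φ '' U := by
      filter_upwards [Metric.isOpen_ball.mem_nhds hq] with r hr
      exact hV' hr
    have hinv : ∀ r ∈ φ '' U, Function.invFunOn φ U r ∈ U ∧ φ (Function.invFunOn φ U r) = r :=
      fun r hr => Function.invFunOn_pos hr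
    have hpq : Function.invFunOn φ U (φ p) = p := by
      obtain ⟨h3, h4⟩ := hinv (φ p) ⟨p, hpU, rfl⟩
      have h5 := (hL _ h3 p hpU).2
      rw [h4, sub_self, norm_zero, mul_zero] at h5
      exact sub_eq_zero.1 (norm_le_zero_iff.1 h5)
    refine h1 3 f g (Function.invFunOn φ U) K (φ p) A B hK.le (by rw [hpq]; exact hA) hB ?_ ?_
    · filter_upwards [hnhds] with r hr
      obtain ⟨h3, h4⟩ := hinv r hr
      rw [hpq]
      have h5 := (hL _ h3 p hpU).2
      rwa [h4] at h5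
    · filter_upwards [hnhds] with r hr
      obtain ⟨h3, h4⟩ := hinv r hr
      rw [hfg _ h3, h4]

end Pool.Agent.H30.LU.LIP
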