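import Pool.Agent.H15.LU.Targets

/-!
# MP_812e67_ag, module NEQ: different members of the family are not bi-Lipschitz equivalent
-/

set_option autoImplicit false

namespace Pool.Agent.H30.LU.NEQ

open Pool.Agent.H15.LU

theorem neq (h1 : T_RT3) (h2 : T_RAT) (h3 : T_INJ) : T_NEQ := by
  intro a c a' c' hs hs' hc hc' hL
  obtain ⟨u₁, u₂, u₃, hu⟩ := h1.1 a hs.1
  obtain ⟨κ, v₁, v₂, v₃, hv, e1, e2, e3⟩ := h2 a c a' c' hs hs' hL u₁ u₂ u₃ hu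
  exact h3 a c a' c' κ u₁ u₂ u₃ v₁ v₂ v₃ hs hs' hc hc' hu hv e1 e2 e3

end Pool.Agent.H30.LU.NEQ
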