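import Pool.Agent.H15.LU.Targets

/-!
# MP_812e67_ag, module EVL: values of convergent sequences of polynomials
-/

set_option autoImplicit false

namespace Pool.Agent.H30.LU.EVL

open Pool.Agent.H15.LU Filter Topology Polynomial

theorem evl : T_EVL := by
  rintro P P' y r m ⟨⟨D, hD⟩, hP⟩ hy hdvd
  choose q hq using hdvd
  have hcoeff : ∀ n j, (q n).coeff j = ((P n).coeff r).coeff (j + m) := by
    intro n j
    rw [hq n, coeff_X_pow_mul]
  have hdeg : ∀ n, (q n).natDegree < D + 1 := by
    intro n
    rw [Nat.lt_succ_iff, natDegree_le_iff_coeff_eq_zero]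
    intro j hj
    rw [hcoeff]
    exact hD n r (j + m) (Or.inr (by omega))
  refine ⟨fun n => (q n).eval (y n), ?_, ?_⟩
  · have h1 : (fun n => (q n).eval (y n)) =
        fun n => ∑ j ∈ Finset.range (D + 1), ((P n).coeff r).coeff (j + m) * y n ^ j := by
      funext n
      rw [eval_eq_sum_range' (hdeg n)]
      exact Finset.sum_congr rfl fun j _ => by rw [hcoeff]
    rw [h1]
    have h2 : ((P'.coeff r).coeff m) =
        ∑ j ∈ Finset.range (D + 1), ((P'.coeff r).coeff (j + m)) * (0 : ℂ) ^ j := by
      rw [Finset.sum_range_succ']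
      simp
    rw [h2]
    exact tendsto_finsetSum _ fun j _ => (hP r (j + m)).mul (hy.pow j)
  · intro n
    show ((P n).coeff r).eval (y n) = _
    rw [hq n, eval_mul, eval_pow, eval_X]

end Pool.Agent.H30.LU.EVL
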